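import Mathlib
import Pool.Agent.H315R3.ETC.Defs
import Pool.Agent.H315R3.ETC.Rec
import Pool.Agent.H315R3.ETC.Gen

set_option autoImplicit false

namespace Pool.Agent.Results.MP_d26ff6_al.IndependentSlots

open Pool.Agent.H315R3.ETC

theorem result :
    -- recognition of group extensions by one quaternion
    (∀ S : QData, IsQuat S → Finite S.G → S.neg = 1 → 4 ≤ Nat.card S.G →
      ((∃ t : S.Q, t ≠ S.zero ∧ (∃ a b : S.G, S.q a b = t) ∧
          ∀ u v : S.G, u ≠ v → (∃ x, S.q u x = t) → (∃ y, S.q v y = t) →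
            ∀ d : S.G, S.q u d = S.zero → S.q v d = S.zero → d = 1) ↔
        ∃ T : QData, IsQuat T ∧ T.neg = 1 ∧ 2 * Nat.card T.G = Nat.card S.G ∧ Iso (ext T) S)) ∧
    -- minimal counterexamples
    (∀ S : QData, IsQuat S → Finite S.G → S.neg = 1 → ¬ Elem S →
      (∀ T : QData, IsQuat T → Finite T.G → Nat.card T.G < Nat.card S.G → Elem T) →
      ∀ a b : S.G, S.q a b ≠ S.zero → ∃ u v d : S.G, u ≠ v ∧ (∃ x, S.q u x = S.q a b) ∧
        (∃ y, S.q v y = S.q a b) ∧ d ≠ 1 ∧ S.q u d = S.zero ∧ S.q v d = S.zero) ∧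
    -- transitive orthogonality
    (∀ S : QData, IsQuat S → Finite S.G → S.neg = 1 →
      (∀ a b c : S.G, b ≠ 1 → S.q a b = S.zero → S.q b c = S.zero → S.q a c = S.zero) →
      Elem S) ∧
    -- small value groups
    (∀ S : QData, IsQuat S → Finite S.G → S.neg = 1 →
      (∀ a : S.G, a ≠ 1 → {b : S.G | S.q a b = S.zero}.ncard ≤ 4) → Elem S) ∧
    -- arbitrary `-1`: rigid slots
    (∀ S : QData, IsQuat S → Finite S.G → ∀ t : S.Q, (∀ a : S.G, S.q a a ≠ t) →
      (∀ u v : S.G, u ≠ v → (∃ x, S.q u x = t) → (∃ y, S.q v y = t) →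
        ∀ d : S.G, S.q u d = S.zero → S.q v d = S.zero → d = 1) →
      ∃ w : S.G, ∀ v : S.G, v ≠ w → (∃ x, S.q v x = t) →
        ∀ e : S.G, S.q v e = S.zero → e = 1 ∨ e = S.neg * v) := by
  refine ⟨?_, ?_, ?_, ?_, ?_⟩
  · intro S h hf hn h4
    constructor
    · rintro ⟨t, ht, ⟨a, b, hab⟩, hI⟩
      exact rec_mp h hn hf ht hab hI
    · rintro ⟨T, hT, hTn, hc, hi⟩
      exact rec_mpr h h4 hT hTn hc hi
  · intro S h hf hn hE hmin a b hab
    by_contra hcon
    apply hE
    have hI : Indep S (S.q a b) := by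
      intro u v huv hu hv d h1 h2
      by_contra hd
      exact hcon ⟨u, v, d, huv, hu, hv, hd, h1, h2⟩
    obtain ⟨T, hT, -, hc, hi⟩ := rec_mp h hn hf hab rfl hI
    have hpos : 0 < Nat.card S.G := Nat.card_pos
    have hTf : Finite T.G := Nat.finite_of_card_ne_zero (by omega)
    exact Elem.iso _ _ (Elem.ext _ (hmin T hT hTf (by omega))) hi
  · intro S h hf hn htr
    exact main S h hf hn htr
  · intro S h hf hn hs
    exact main S h hf hn (trans_of_small h hn hf hs)
  · intro S h hf t hl hI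
    exact rigid_slots h hl hI

end Pool.Agent.Results.MP_d26ff6_al.IndependentSlots
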